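import Mathlib

/-!
MP_b41bf9_ag, Q1 has a negative answer over every finite field `F`: for the regular map
`T (x, y, z) = x (y - z) • (x z, x y, z ^ 2)` of affine space of dimension three there is no
geometrically nilpotent subvariety `Y` such that each geometrically nilpotent subvariety `Z` is
contained in `(T^k)⁻¹ (T^m (Y))` for some `k` and `m`.

Let `p` be the characteristic of `F` and `q` a power of `p`. In the coordinates `u = x / z`,
`v = y / z` the map is `(u, v) ↦ (u, u v)`, and the plane `v = 1` is mapped to the origin. On the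
surface `v ^ q = u` the elements `u` and `v` generate the same finite group for each geometric point,
so that `u ^ n v = 1` for some `n`: all points of this surface are mapped to the origin. But the
curves `v ^ q = u ^ (1 + j q)`, one for each `q`, do not lie on a common curve.
-/

set_option autoImplicit false

namespace Pool.Agent.Results.MP_b41bf9_ag.NoMaximal

open MvPolynomial

universe u

section Defs

variable {F : Type u} [Field F] {n : ℕ}

/-- The regular map of affine `n`-space over `F` given by the polynomials `f i`, on the geometric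
points. -/
noncomputable def polyMap (f : Fin n → MvPolynomial (Fin n) F) (v : Fin n → AlgebraicClosure F) :
    Fin n → AlgebraicClosure F :=
  fun i => aeval v (f i)

/-- The set of geometric points `Y` is a closed subvariety (possibly empty or reducible), defined
over `F`, of affine `n`-space: the set of zeros of a set of polynomials with coefficients in `F`. -/
def IsSubvariety (Y : Set (Fin n → AlgebraicClosure F)) : Prop :=
  ∃ S : Set (MvPolynomial (Fin n) F), Y = {v | ∀ p ∈ S, aeval v p = 0}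

/-- The subvariety `Y` is irreducible (over `F`). -/
def IsIrred (Y : Set (Fin n → AlgebraicClosure F)) : Prop :=
  IsSubvariety Y ∧ Y.Nonempty ∧ ∀ A B : Set (Fin n → AlgebraicClosure F), IsSubvariety A →
    IsSubvariety B → Y ⊆ A ∪ B → Y ⊆ A ∨ Y ⊆ B

/-- `W` is an irreducible component of `Y`. -/
def IsComponent (W Y : Set (Fin n → AlgebraicClosure F)) : Prop :=
  IsIrred W ∧ W ⊆ Y ∧ ∀ V : Set (Fin n → AlgebraicClosure F), IsIrred V → W ⊆ V → V ⊆ Y → V = W

/-- The subvariety `Y`, possibly empty or reducible, is geometrically nilpotent for `T`: for each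
irreducible component `W` of `Y` there is a fixed point `P` of `T` such that each point `y` of `W` is
mapped to `P` by some iterate of `T`, which may depend on `y`. -/
def IsGeomNilpotent (T : (Fin n → AlgebraicClosure F) → Fin n → AlgebraicClosure F)
    (Y : Set (Fin n → AlgebraicClosure F)) : Prop :=
  IsSubvariety Y ∧ ∀ W, IsComponent W Y → ∃ P, T P = P ∧ ∀ y ∈ W, ∃ k : ℕ, 1 ≤ k ∧ T^[k] y = P

end Defs

section Proof

variable {F : Type u} [Field F]

/-- The polynomials `x (y - z) x z`, `x (y - z) x y`, `x (y - z) z ^ 2`. -/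
noncomputable def eqns (F : Type u) [Field F] : Fin 3 → MvPolynomial (Fin 3) F :=
  ![X 0 * (X 1 - X 2) * (X 0 * X 2), X 0 * (X 1 - X 2) * (X 0 * X 1),
    X 0 * (X 1 - X 2) * X 2 ^ 2]

/-- The map `T (x, y, z) = x (y - z) • (x z, x y, z ^ 2)`. -/
noncomputable abbrev T (F : Type u) [Field F] :
    (Fin 3 → AlgebraicClosure F) → Fin 3 → AlgebraicClosure F := polyMap (eqns F)

theorem T_apply (v : Fin 3 → AlgebraicClosure F) :
    T F v = ![v 0 * (v 1 - v 2) * (v 0 * v 2), v 0 * (v 1 - v 2) * (v 0 * v 1),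
      v 0 * (v 1 - v 2) * v 2 ^ 2] := by
  ext i
  fin_cases i <;> simp [T, polyMap, eqns]

theorem T_mk (x y z : AlgebraicClosure F) :
    T F ![x, y, z] = ![x * (y - z) * (x * z), x * (y - z) * (x * y), x * (y - z) * z ^ 2] := by
  rw [T_apply]
  simp

theorem T_zero : T F 0 = 0 := by
  rw [T_apply]
  ext i
  fin_cases i <;> simp

/-- The point `c • (t ^ q, t ^ (1 + j q), 1)`. -/
noncomputable def pt (q j : ℕ) (t c : AlgebraicClosure F) : Fin 3 → AlgebraicClosure F :=
  ![c * t ^ q, c * t ^ (1 + j * q), c]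

theorem T_pt (q j : ℕ) (t c : AlgebraicClosure F) :
    T F (pt q j t c) = pt q (j + 1) t (c ^ 4 * (t ^ q * (t ^ (1 + j * q) - 1))) := by
  rw [pt, T_mk, pt]
  have h : t ^ (1 + (j + 1) * q) = t ^ q * t ^ (1 + j * q) := by rw [← pow_add]; congr 1; ring
  rw [h]
  ext i
  fin_cases i
  · simp; ring
  · simp; ring
  · simp; ring

/-- The scalar of the iterates of the points, as a polynomial in `t`. -/
noncomputable def scal (K : Type u) [Field K] (q : ℕ) : ℕ → Polynomial K
  | 0 => 1
  | j + 1 => scal K q j ^ 4 * (Polynomial.X ^ q * (Polynomial.X ^ (1 + j * q) - 1))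

theorem scal_ne (K : Type u) [Field K] (q : ℕ) (j : ℕ) : scal K q j ≠ 0 := by
  induction j with
  | zero => simp [scal]
  | succ j ih =>
    rw [scal]
    refine mul_ne_zero (pow_ne_zero _ ih) (mul_ne_zero (pow_ne_zero _ Polynomial.X_ne_zero) ?_)
    exact Polynomial.X_pow_sub_C_ne_zero (by omega) 1

theorem iter_pt (q : ℕ) (t c : AlgebraicClosure F) (j : ℕ) :
    (T F)^[j] (pt q 0 t c) =
      pt q j t (c ^ 4 ^ j * (scal (AlgebraicClosure F) q j).eval t) := by
  induction j with
  | zero => simp [scal]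
  | succ j ih =>
    rw [Function.iterate_succ_apply', ih, T_pt]
    congr 1
    rw [scal]
    simp only [Polynomial.eval_mul, Polynomial.eval_pow, Polynomial.eval_X, Polynomial.eval_sub,
      Polynomial.eval_one]
    rw [pow_succ 4 j, pow_mul]
    ring

/-- The surface `y ^ q = x z ^ (q - 1)`. -/
def surf (F : Type u) [Field F] (q : ℕ) : Set (Fin 3 → AlgebraicClosure F) :=
  {v | v 1 ^ q = v 0 * v 2 ^ (q - 1)}

theorem surf_sub (q : ℕ) : IsSubvariety (surf F q) := by
  refine ⟨{X 1 ^ q - X 0 * X 2 ^ (q - 1)}, ?_⟩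
  ext v
  simp [surf, sub_eq_zero]

theorem pt_mem {q : ℕ} (hq : 1 ≤ q) (t c : AlgebraicClosure F) : pt q 0 t c ∈ surf F q := by
  obtain ⟨r, rfl⟩ := Nat.exists_eq_add_of_le hq
  simp only [surf, pt, Set.mem_ofPred_eq]
  simp
  ring

theorem eq_pt {q : ℕ} (hq : 1 ≤ q) {v : Fin 3 → AlgebraicClosure F} (hv : v ∈ surf F q)
    (h2 : v 2 ≠ 0) : v = pt q 0 (v 1 / v 2) (v 2) := by
  obtain ⟨r, rfl⟩ := Nat.exists_eq_add_of_le hq
  simp only [surf, Set.mem_ofPred_eq, Nat.add_sub_cancel_left] at hv
  ext i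
  fin_cases i
  · simp [pt]
    rw [div_pow, hv, pow_add]
    field_simp
  · simp [pt]
    field_simp
  · simp [pt]

/-- Every nonzero element of the algebraic closure of a finite field is a root of unity of order
prime to the characteristic. -/
theorem exists_order [Finite F] (p : ℕ) [Fact p.Prime] [CharP F p] {t : AlgebraicClosure F}
    (ht : t ≠ 0) : ∃ N : ℕ, 0 < N ∧ N.Coprime p ∧ t ^ N = 1 := by
  let L : IntermediateField F (AlgebraicClosure F) := IntermediateField.adjoin F {t}
  have hfd : FiniteDimensional F L :=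
    IntermediateField.adjoin.finiteDimensional (Algebra.IsAlgebraic.isAlgebraic t).isIntegral
  have hfin : Finite L := Module.finite_of_finite F
  have := Fintype.ofFinite L
  let s : L := ⟨t, IntermediateField.mem_adjoin_simple_self F t⟩
  have hs : s ≠ 0 := fun h => ht (congrArg Subtype.val h)
  have h1 : s ^ (Fintype.card L - 1) = 1 := FiniteField.pow_card_sub_one_eq_one s hs
  have hcL : CharP L p := charP_of_injective_algebraMap (algebraMap F L).injective p
  obtain ⟨n, hp, hn⟩ := FiniteField.card L p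
  have hc : 1 < Fintype.card L := Fintype.one_lt_card
  refine ⟨Fintype.card L - 1, by omega, ?_, ?_⟩
  · have hdvd : p ∣ Fintype.card L := by
      rw [hn]
      exact dvd_pow_self p n.ne_zero
    have hpr : p.Prime := hp
    rw [Nat.coprime_comm, Nat.Prime.coprime_iff_not_dvd hpr]
    intro hd
    have h3 : p ∣ 1 := by
      have := Nat.dvd_sub hdvd hd
      rwa [Nat.sub_sub_self hc.le] at this
    exact hpr.one_lt.ne' (Nat.dvd_one.1 h3)
  · have := congrArg Subtype.val h1
    simpa using this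

theorem pt_zero (q j : ℕ) (t : AlgebraicClosure F) : pt q j t 0 = 0 := by
  ext i
  fin_cases i <;> simp [pt]

theorem surf_nil [Finite F] (p : ℕ) [Fact p.Prime] [CharP F p] {k : ℕ} (hk : 1 ≤ k)
    {v : Fin 3 → AlgebraicClosure F} (hv : v ∈ surf F (p ^ k)) :
    ∃ n : ℕ, 1 ≤ n ∧ (T F)^[n] v = 0 := by
  have hp : p.Prime := Fact.out
  have hq : 2 ≤ p ^ k := le_trans hp.two_le (Nat.le_self_pow (by omega) p)
  by_cases h2 : v 2 = 0
  · refine ⟨1, le_rfl, ?_⟩
    have h1 : v 1 = 0 := by
      simp only [surf, Set.mem_ofPred_eq, h2] at hv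
      rw [zero_pow (by omega), mul_zero] at hv
      exact pow_eq_zero_iff (by omega) |>.1 hv
    rw [Function.iterate_one, T_apply, h2, h1]
    ext i
    fin_cases i <;> simp
  · have h := eq_pt (by omega) hv h2
    set t := v 1 / v 2
    by_cases ht : t = 0
    · refine ⟨1, le_rfl, ?_⟩
      rw [h, Function.iterate_one, T_pt, ht, zero_pow (by omega), zero_mul, mul_zero, pt_zero]
    · obtain ⟨N, hN, hc, hN1⟩ := exists_order p ht
      have hc' : N.Coprime (p ^ k) := Nat.Coprime.pow_right k hc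
      obtain ⟨x, hx1, hx2⟩ := Nat.chineseRemainder hc' 0 1
      have hx0 : x ≠ 0 := by
        rintro rfl
        have := hx2
        rw [Nat.ModEq, Nat.zero_mod, Nat.mod_eq_of_lt (by omega)] at this
        omega
      obtain ⟨n, hn⟩ := (Nat.modEq_iff_dvd' (by omega)).1 hx2.symm
      have hxn : x = 1 + n * p ^ k := by
        rw [mul_comm n]
        omega
      have htx : t ^ (1 + n * p ^ k) = 1 := by
        rw [← hxn]
        obtain ⟨m, hm⟩ := (Nat.modEq_zero_iff_dvd).1 hx1
        rw [hm, pow_mul, hN1, one_pow]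
      refine ⟨n + 1, by omega, ?_⟩
      rw [h, iter_pt, scal]
      simp [htx, pt_zero]

/-- The coordinates of a point whose iterate is not in the plane `z = 0`. -/
theorem iter_inv (v : Fin 3 → AlgebraicClosure F) (m : ℕ) (h : (T F)^[m] v 2 ≠ 0) :
    v 2 ≠ 0 ∧ (T F)^[m] v 0 * v 2 = v 0 * (T F)^[m] v 2 ∧
      (T F)^[m] v 1 * v 2 ^ (m + 1) = v 0 ^ m * v 1 * (T F)^[m] v 2 := by
  induction m with
  | zero =>
    refine ⟨h, rfl, ?_⟩
    simp
  | succ m ih =>
    rw [Function.iterate_succ_apply', T_apply] at h ⊢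
    simp only [Matrix.cons_val_zero, Matrix.cons_val_one, Matrix.cons_val] at h ⊢
    have h2 : (T F)^[m] v 2 ≠ 0 := by
      intro h0
      rw [h0] at h
      simp at h
    obtain ⟨i1, i2, i3⟩ := ih h2
    refine ⟨i1, ?_, ?_⟩
    · linear_combination ((T F)^[m] v 0 * ((T F)^[m] v 1 - (T F)^[m] v 2) * (T F)^[m] v 2) * i2
    · rw [pow_succ (v 2) (m + 1), pow_succ (v 0) m]
      linear_combination ((T F)^[m] v 0 * ((T F)^[m] v 1 - (T F)^[m] v 2) * ((T F)^[m] v 0 * v 2)) * i3 + ((T F)^[m] v 0 * ((T F)^[m] v 1 - (T F)^[m] v 2) * (v 0 ^ m * v 1 * (T F)^[m] v 2)) * i2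

/-- The point `(t ^ (q (1 + m)), t ^ (1 + a q), t ^ (m q))`. -/
noncomputable def W (q a m : ℕ) (t c : AlgebraicClosure F) : Fin 3 → AlgebraicClosure F :=
  ![c * t ^ (q * (1 + m)), c * t ^ (1 + a * q), c * t ^ (m * q)]

theorem eq_W {q a m : ℕ} {t r : AlgebraicClosure F} (ht : t ≠ 0) (hr : r ≠ 0)
    {v : Fin 3 → AlgebraicClosure F} (h : (T F)^[m] v = pt q a t r) :
    v = W q a m t (v 2 / t ^ (m * q)) := by
  have h2 : (T F)^[m] v 2 = r := by
    rw [h]
    simp [pt]
  have h0 : (T F)^[m] v 0 = r * t ^ q := by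
    rw [h]
    simp [pt]
  have h1 : (T F)^[m] v 1 = r * t ^ (1 + a * q) := by
    rw [h]
    simp [pt]
  obtain ⟨i1, i2, i3⟩ := iter_inv v m (by rw [h2]; exact hr)
  rw [h0, h2] at i2
  rw [h1, h2] at i3
  have e0 : v 0 = v 2 * t ^ q := by
    apply mul_right_cancel₀ hr
    linear_combination -i2
  have e1 : v 1 * t ^ (m * q) = v 2 * t ^ (1 + a * q) := by
    rw [e0, mul_pow] at i3
    apply mul_left_cancel₀ (mul_ne_zero hr (pow_ne_zero m i1))
    rw [← pow_mul, mul_comm q m] at i3
    linear_combination -i3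
  have htm : t ^ (m * q) ≠ 0 := pow_ne_zero _ ht
  ext i
  fin_cases i
  · simp only [W, Fin.zero_eta, Matrix.cons_val_zero]
    rw [e0, show q * (1 + m) = q + m * q by ring, pow_add]
    field_simp
  · change v 1 = v 2 / t ^ (m * q) * t ^ (1 + a * q)
    field_simp
    exact e1
  · simp only [W, Fin.reduceFinMk, Matrix.cons_val]
    field_simp

/-- The exponent of `t` after the substitution `W q a m t (t ^ M)`. -/
def expo (q a m M : ℕ) (α : Fin 3 →₀ ℕ) : ℕ :=
  (M + q * (1 + m)) * α 0 + (M + (1 + a * q)) * α 1 + (M + m * q) * α 2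

theorem expo_eq (q a m M : ℕ) (α : Fin 3 →₀ ℕ) :
    expo q a m M α = M * (α 0 + α 1 + α 2) + expo q a m 0 α := by
  simp only [expo]
  ring

theorem expo_inj {q a m M : ℕ} {α β : Fin 3 →₀ ℕ} (hα : α 1 < q) (hβ : β 1 < q)
    (hMα : expo q a m 0 α < M) (hMβ : expo q a m 0 β < M)
    (h : expo q a m M α = expo q a m M β) : α = β := by
  have hM : 0 < M := by omega
  rw [expo_eq, expo_eq q a m M β] at h
  have h1 : α 0 + α 1 + α 2 = β 0 + β 1 + β 2 := by
    have := congrArg (· / M) h
    simp only [Nat.mul_add_div hM, Nat.div_eq_of_lt hMα, Nat.div_eq_of_lt hMβ] at this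
    omega
  have h2 : expo q a m 0 α = expo q a m 0 β := by
    rw [h1] at h
    omega
  have e1 : ∀ γ : Fin 3 →₀ ℕ, expo q a m 0 γ =
      q * ((1 + m) * γ 0 + a * γ 1 + m * γ 2) + γ 1 := by
    intro γ
    simp only [expo]
    ring
  rw [e1, e1] at h2
  have h3 : α 1 = β 1 := by
    have := congrArg (· % q) h2
    simpa only [Nat.mul_add_mod, Nat.mod_eq_of_lt hα, Nat.mod_eq_of_lt hβ] using this
  have hq : 0 < q := by omega
  have h4 : (1 + m) * α 0 + a * α 1 + m * α 2 = (1 + m) * β 0 + a * β 1 + m * β 2 := by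
    rw [h3] at h2
    have := Nat.add_right_cancel h2
    have h5 := Nat.eq_of_mul_eq_mul_left hq this
    rw [h3]
    exact h5
  have h6 : α 0 + α 2 = β 0 + β 2 := by omega
  have h7 : α 0 = β 0 := by
    have e2 : ∀ γ : Fin 3 →₀ ℕ, (1 + m) * γ 0 + a * γ 1 + m * γ 2 =
        γ 0 + m * (γ 0 + γ 2) + a * γ 1 := by
      intro γ
      ring
    rw [e2, e2, h6, h3] at h4
    omega
  ext i
  fin_cases i
  · exact h7
  · exact h3
  · change α 2 = β 2
    omega

theorem aeval_W (G : MvPolynomial (Fin 3) F) (q a m : ℕ) (t c : AlgebraicClosure F) :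
    aeval (W q a m t c) G = (aeval (fun i => Polynomial.C (W q a m t 1 i) * Polynomial.X)
      G : Polynomial (AlgebraicClosure F)).eval c := by
  rw [← Polynomial.coe_evalRingHom, ← Polynomial.coe_aeval_eq_evalRingHom, ← AlgHom.coe_toRingHom]
  have : ((Polynomial.aeval c : Polynomial (AlgebraicClosure F) →ₐ[AlgebraicClosure F] _).restrictScalars F).comp
      (aeval (fun i => Polynomial.C (W q a m t 1 i) * Polynomial.X) :
        MvPolynomial (Fin 3) F →ₐ[F] Polynomial (AlgebraicClosure F)) = aeval (W q a m t c) := by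
    ext i
    fin_cases i
    · simp [W]; ring
    · simp [W]; ring
    · simp [W]; ring
  rw [← this]
  rfl

/-- The one variable polynomial obtained from `G` by the substitution `W q a m t (t ^ M)`. -/
noncomputable def subs (G : MvPolynomial (Fin 3) F) (q a m M : ℕ) :
    Polynomial (AlgebraicClosure F) :=
  aeval ![Polynomial.X ^ (M + q * (1 + m)), Polynomial.X ^ (M + (1 + a * q)),
    Polynomial.X ^ (M + m * q)] G

theorem subs_eval (G : MvPolynomial (Fin 3) F) (q a m M : ℕ) (t : AlgebraicClosure F) :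
    (subs G q a m M).eval t = aeval (W q a m t (t ^ M)) G := by
  have : ((Polynomial.aeval t : Polynomial (AlgebraicClosure F) →ₐ[AlgebraicClosure F] _).restrictScalars F).comp
      (aeval ![Polynomial.X ^ (M + q * (1 + m)), Polynomial.X ^ (M + (1 + a * q)),
        Polynomial.X ^ (M + m * q)] :
        MvPolynomial (Fin 3) F →ₐ[F] Polynomial (AlgebraicClosure F)) =
      aeval (W q a m t (t ^ M)) := by
    ext i
    fin_cases i <;> simp [W, pow_add]
  rw [← this]
  rfl

theorem subs_ne {G : MvPolynomial (Fin 3) F} (hG : G ≠ 0) {q : ℕ}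
    (hq : ∀ α ∈ G.support, α 1 < q) (a m : ℕ) : ∃ M, subs G q a m M ≠ 0 := by
  obtain ⟨α₀, h₀⟩ : ∃ α, α ∈ G.support := by
    by_contra hcon
    push Not at hcon
    exact hG (MvPolynomial.support_eq_empty.1 (Finset.eq_empty_of_forall_notMem hcon))
  set M := 1 + ∑ α ∈ G.support, expo q a m 0 α with hM
  have hlt : ∀ α ∈ G.support, expo q a m 0 α < M := by
    intro α hα
    have := Finset.single_le_sum (f := fun α => expo q a m 0 α) (fun _ _ => Nat.zero_le _) hα
    omega
  refine ⟨M, fun h0 => ?_⟩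
  have h1 : subs G q a m M = ∑ α ∈ G.support,
      Polynomial.C (algebraMap F (AlgebraicClosure F) (G.coeff α)) *
        Polynomial.X ^ expo q a m M α := by
    rw [subs, aeval_def, eval₂_eq']
    refine Finset.sum_congr rfl fun α _ => ?_
    rw [Fin.prod_univ_three]
    simp only [Matrix.cons_val_zero, Matrix.cons_val_one, Matrix.cons_val, ← pow_mul, ← pow_add,
      expo]
    rfl
  have h2 := congrArg (fun P => Polynomial.coeff P (expo q a m M α₀)) h1
  rw [h0] at h2
  simp only [Polynomial.coeff_zero, Polynomial.finsetSum_coeff, Polynomial.coeff_C_mul_X_pow] at h2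
  rw [Finset.sum_eq_single α₀] at h2
  · rw [if_pos rfl] at h2
    have h3 := (map_eq_zero_iff _ (algebraMap F (AlgebraicClosure F)).injective).1 h2.symm
    exact (mem_support_iff.1 h₀) h3
  · intro β hβ hne
    rw [if_neg]
    intro h
    exact hne (expo_inj (hq β hβ) (hq α₀ h₀) (hlt β hβ) (hlt α₀ h₀) h.symm)
  · intro h
    exact absurd h₀ h

theorem not_contained {G : MvPolynomial (Fin 3) F} (hG : G ≠ 0) {q : ℕ} (hq1 : 1 ≤ q)
    (hq : ∀ α ∈ G.support, α 1 < q) {Y : Set (Fin 3 → AlgebraicClosure F)}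
    (hY : ∀ v ∈ Y, aeval v G = 0) (a m : ℕ) :
    ¬ surf F q ⊆ (T F)^[a] ⁻¹' ((T F)^[m] '' Y) := by
  intro h
  set K := AlgebraicClosure F
  have key : ∀ t : K, t ≠ 0 → (scal K q a).eval t ≠ 0 → ∀ c : K, aeval (W q a m t c) G = 0 := by
    intro t ht hA
    have hroot : ∀ r : K, r ≠ 0 → ∃ μ : K, aeval (W q a m t μ) G = 0 ∧
        (T F)^[m] (W q a m t μ) 2 = r := by
      intro r hr
      obtain ⟨c, hc⟩ := IsAlgClosed.exists_pow_nat_eq (r / (scal K q a).eval t)
        (pow_pos (by norm_num : 0 < 4) a)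
      have h1 := h (pt_mem hq1 t c)
      rw [Set.mem_preimage, iter_pt, hc, div_mul_cancel₀ _ hA] at h1
      obtain ⟨v, hvY, hv⟩ := h1
      have h2 := eq_W ht hr hv
      refine ⟨v 2 / t ^ (m * q), ?_, ?_⟩
      · rw [← h2]
        exact hY v hvY
      · rw [← h2, hv]
        simp [pt]
    have hinf : {μ : K | aeval (W q a m t μ) G = 0}.Infinite := by
      intro hfin
      have h3 : ({0}ᶜ : Set K) ⊆ (fun μ => (T F)^[m] (W q a m t μ) 2) ''
          {μ : K | aeval (W q a m t μ) G = 0} := by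
        intro r hr
        obtain ⟨μ, hμ1, hμ2⟩ := hroot r hr
        exact ⟨μ, hμ1, hμ2⟩
      have h4 := (hfin.image (fun μ => (T F)^[m] (W q a m t μ) 2)).subset h3
      have : Infinite K := IsAlgClosed.instInfinite
      exact (Set.finite_singleton (0 : K)).infinite_compl h4
    have hzero := Polynomial.eq_zero_of_infinite_isRoot
      (aeval (fun i => Polynomial.C (W q a m t 1 i) * Polynomial.X) G : Polynomial K)
      (hinf.mono fun μ hμ => by
        rw [Set.mem_ofPred_eq, aeval_W] at hμ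
        exact hμ)
    intro c
    rw [aeval_W, hzero, Polynomial.eval_zero]
  obtain ⟨M, hM⟩ := subs_ne hG hq a m
  have hprod : subs G q a m M * (Polynomial.X * scal K q a) = 0 := by
    apply Polynomial.funext
    intro t
    rw [Polynomial.eval_mul, Polynomial.eval_mul, Polynomial.eval_X, Polynomial.eval_zero]
    by_cases ht : t = 0
    · rw [ht]; ring
    · by_cases hA : (scal K q a).eval t = 0
      · rw [hA]; ring
      · rw [subs_eval, key t ht hA, zero_mul]
  exact (mul_ne_zero hM (mul_ne_zero Polynomial.X_ne_zero (scal_ne K q a))) hprod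

theorem aeval_funext {n : ℕ} {p : MvPolynomial (Fin n) F}
    (h : ∀ v : Fin n → AlgebraicClosure F, aeval v p = 0) : p = 0 := by
  have : Infinite (AlgebraicClosure F) := IsAlgClosed.instInfinite
  apply map_injective _ (algebraMap F (AlgebraicClosure F)).injective
  rw [map_zero]
  apply MvPolynomial.funext
  intro v
  rw [eval_map, map_zero]
  exact h v

theorem univ_irred : IsIrred (Set.univ : Set (Fin 3 → AlgebraicClosure F)) := by
  refine ⟨⟨∅, by simp⟩, ⟨0, trivial⟩, ?_⟩
  rintro A B ⟨S, rfl⟩ ⟨S', rfl⟩ h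
  by_contra hcon
  push Not at hcon
  obtain ⟨h1, h2⟩ := hcon
  rw [Set.not_subset] at h1 h2
  obtain ⟨v, -, hv⟩ := h1
  obtain ⟨v', -, hv'⟩ := h2
  simp only [Set.mem_ofPred_eq, not_forall] at hv hv'
  obtain ⟨p, hp, hpv⟩ := hv
  obtain ⟨p', hp', hpv'⟩ := hv'
  have h3 : p * p' = 0 := by
    apply aeval_funext
    intro w
    rcases h (Set.mem_univ w) with hw | hw
    · rw [map_mul, hw p hp, zero_mul]
    · rw [map_mul, hw p' hp', mul_zero]
  rcases mul_eq_zero.1 h3 with h4 | h4
  · rw [h4] at hpv; simp at hpv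
  · rw [h4] at hpv'; simp at hpv'

theorem exists_eqn {Y : Set (Fin 3 → AlgebraicClosure F)} (hY : IsGeomNilpotent (T F) Y) :
    ∃ G : MvPolynomial (Fin 3) F, G ≠ 0 ∧ ∀ v ∈ Y, aeval v G = 0 := by
  by_contra hcon
  push Not at hcon
  obtain ⟨⟨S, hS⟩, hY2⟩ := hY
  have hYu : Y = Set.univ := by
    rw [Set.eq_univ_iff_forall, hS]
    intro v p hp
    by_cases h0 : p = 0
    · rw [h0, map_zero]
    · obtain ⟨w, hw, hw2⟩ := hcon p h0
      rw [hS] at hw
      exact absurd (hw p hp) hw2
  obtain ⟨P, hP, hall⟩ := hY2 Set.univ ⟨univ_irred, by rw [hYu], fun V _ h _ => Set.univ_subset_iff.1 h⟩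
  obtain ⟨k, -, hk⟩ := hall 0 trivial
  rw [Function.iterate_fixed T_zero] at hk
  obtain ⟨k', -, hk'⟩ := hall ![1, 0, 1] trivial
  have h1 : ∀ n : ℕ, ∃ c : AlgebraicClosure F, c ≠ 0 ∧ (T F)^[n] ![1, 0, 1] = ![c, 0, c] := by
    intro n
    induction n with
    | zero => exact ⟨1, one_ne_zero, rfl⟩
    | succ n ih =>
      obtain ⟨c, hc, h⟩ := ih
      refine ⟨c * (0 - c) * (c * c), mul_ne_zero (mul_ne_zero hc (by simpa using hc))
        (mul_ne_zero hc hc), ?_⟩
      rw [Function.iterate_succ_apply', h, T_mk]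
      ext i
      fin_cases i
      · rfl
      · simp
      · change c * (0 - c) * c ^ 2 = c * (0 - c) * (c * c)
        ring
  obtain ⟨c, hc, h2⟩ := h1 k'
  rw [h2, ← hk] at hk'
  exact hc (by simpa using congrFun hk' 0)

end Proof

/-- For every finite field `F` and the regular map `T (x, y, z) = x (y - z) • (x z, x y, z ^ 2)` of
affine three-space over `F`: for every geometrically nilpotent subvariety `Y` there is a
geometrically nilpotent subvariety `Z` which is contained in `(T^k)⁻¹ (T^m (Y))` for no pair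
`k, m ≥ 0`. -/
theorem result (F : Type u) [Field F] [Finite F] :
    ∃ f : Fin 3 → MvPolynomial (Fin 3) F,
      f = ![X 0 * (X 1 - X 2) * (X 0 * X 2), X 0 * (X 1 - X 2) * (X 0 * X 1),
        X 0 * (X 1 - X 2) * X 2 ^ 2] ∧
      ∀ Y : Set (Fin 3 → AlgebraicClosure F), IsGeomNilpotent (polyMap f) Y →
        ∃ Z : Set (Fin 3 → AlgebraicClosure F), IsGeomNilpotent (polyMap f) Z ∧
          ∀ k m : ℕ, ¬ Z ⊆ (polyMap f)^[k] ⁻¹' ((polyMap f)^[m] '' Y) := by
  refine ⟨eqns F, rfl, fun Y hY => ?_⟩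
  obtain ⟨p, hp⟩ := CharP.exists F
  have hpr : Fact p.Prime := ⟨(CharP.char_is_prime_or_zero F p).resolve_right fun h0 => by
    subst h0
    have := CharP.charP_to_charZero F
    exact not_finite F⟩
  obtain ⟨G, hG, hGY⟩ := exists_eqn hY
  set k := G.degreeOf 1 + 1 with hk
  have hlt : ∀ α ∈ G.support, α 1 < p ^ k := by
    intro α hα
    have h1 := monomial_le_degreeOf (1 : Fin 3) hα
    calc α 1 < k := by omega
      _ < 2 ^ k := Nat.lt_two_pow_self
      _ ≤ p ^ k := Nat.pow_le_pow_left hpr.out.two_le k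
  refine ⟨surf F (p ^ k), ⟨surf_sub _, fun V hV => ⟨0, T_zero, fun y hy => ?_⟩⟩, ?_⟩
  · exact surf_nil p (by omega) (hV.2.1 hy)
  · exact not_contained hG (Nat.one_le_iff_ne_zero.2 (pow_ne_zero _ hpr.out.ne_zero)) hlt hGY

end Pool.Agent.Results.MP_b41bf9_ag.NoMaximal
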